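import Pool.Agent.Y773.D4.Def

/-!
# Project D4, job D4-UNR: almost all primes are unramified
-/

set_option autoImplicit false

open NumberField

namespace Pool.Agent.Y903.D4

open Pool.Agent.Y773.D4

theorem norm_cast (z : GaussianInt) : ((z.norm.natAbs : ℕ) : GaussianInt) = z * star z := by
  have h1 : ((z.norm : ℤ) : GaussianInt) = z * star z := Zsqrtd.norm_eq_mul_conj z
  have h2 : ((z.norm.natAbs : ℕ) : ℤ) = z.norm := Int.natAbs_of_nonneg (GaussianInt.norm_nonneg z)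
  calc ((z.norm.natAbs : ℕ) : GaussianInt) = (((z.norm.natAbs : ℕ) : ℤ) : GaussianInt) := by
        rw [Int.cast_natCast]
    _ = ((z.norm : ℤ) : GaussianInt) := by rw [h2]
    _ = z * star z := h1

theorem norm_ne (z : GaussianInt) (hz : z ≠ 0) : z.norm.natAbs ≠ 0 := by
  intro h
  apply hz
  have h0 : z.norm = 0 := Int.natAbs_eq_zero.mp h
  exact (Zsqrtd.norm_eq_zero_iff (by norm_num) z).mp h0

section

variable {M : Type} [Field M] [NumberField M] [Algebra GaussianInt (𝓞 M)]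

theorem indep {σ : M ≃ₐ[ℚ] M} {Nm : Ideal (𝓞 M) →*₀ Ideal GaussianInt} (hR : Rel σ Nm)
    {θ : 𝓞 M} {α : GaussianInt} (hα : α ≠ 0) (hθ : θ ^ 2 = algebraMap GaussianInt (𝓞 M) α)
    (hs : sg σ θ = -θ) (u v : GaussianInt)
    (h : algebraMap GaussianInt (𝓞 M) u + algebraMap GaussianInt (𝓞 M) v * θ = 0) :
    u = 0 ∧ v = 0 := by
  have h1 : algebraMap GaussianInt (𝓞 M) u - algebraMap GaussianInt (𝓞 M) v * θ = 0 := by
    have h2 : sg σ (algebraMap GaussianInt (𝓞 M) u + algebraMap GaussianInt (𝓞 M) v * θ) = 0 := by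
      rw [h, map_zero]
    rw [map_add, map_mul, hR.fix, hR.fix, hs] at h2
    linear_combination h2
  have h3 : (2 : 𝓞 M) * algebraMap GaussianInt (𝓞 M) u = 0 := by
    linear_combination h + h1
  have h4 : algebraMap GaussianInt (𝓞 M) u = 0 := by
    rcases mul_eq_zero.mp h3 with h5 | h5
    · exact absurd h5 two_ne_zero
    · exact h5
  have hu : u = 0 := by
    apply hR.inj
    rw [h4, map_zero]
  have h6 : algebraMap GaussianInt (𝓞 M) v * θ = 0 := by
    linear_combination h - h4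
  have hv : v = 0 := by
    rcases mul_eq_zero.mp h6 with h7 | h7
    · apply hR.inj
      rw [h7, map_zero]
    · exfalso
      apply hα
      apply hR.inj
      rw [← hθ, h7, map_zero]
      norm_num
  exact ⟨hu, hv⟩

theorem sq_mem {σ : M ≃ₐ[ℚ] M} {Nm : Ideal (𝓞 M) →*₀ Ideal GaussianInt} (hR : Rel σ Nm)
    {θ : 𝓞 M} {α r : GaussianInt} (hα : α ≠ 0)
    (hθ : θ ^ 2 = algebraMap GaussianInt (𝓞 M) α)
    (hs : sg σ θ = -θ)
    (hx : ∀ x : 𝓞 M, ∃ a b : GaussianInt, algebraMap GaussianInt (𝓞 M) r * x =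
      algebraMap GaussianInt (𝓞 M) a + algebraMap GaussianInt (𝓞 M) b * θ)
    (p : GaussianInt) (hp : Prime p) (hp2 : ¬ p ∣ 2) (hpα : ¬ p ∣ α) (hpr : ¬ p ∣ r)
    (y : 𝓞 M) (hy : y ^ 2 ∈ up M p) : y ∈ up M p := by
  rw [up, Ideal.mem_span_singleton] at hy ⊢
  obtain ⟨w, hw⟩ := hy
  obtain ⟨a, b, hab⟩ := hx y
  obtain ⟨a1, b1, hab1⟩ := hx w
  have hkey : algebraMap GaussianInt (𝓞 M) (a ^ 2 + α * b ^ 2 - r * p * a1) +
      algebraMap GaussianInt (𝓞 M) (2 * a * b - r * p * b1) * θ = 0 := by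
    simp only [map_add, map_sub, map_mul, map_pow, map_ofNat]
    linear_combination (-(algebraMap GaussianInt (𝓞 M) r * y) -
      (algebraMap GaussianInt (𝓞 M) a + algebraMap GaussianInt (𝓞 M) b * θ)) * hab +
      (algebraMap GaussianInt (𝓞 M) r) ^ 2 * hw +
      (algebraMap GaussianInt (𝓞 M) r * algebraMap GaussianInt (𝓞 M) p) * hab1 -
      (algebraMap GaussianInt (𝓞 M) b) ^ 2 * hθ
  obtain ⟨e1, e2⟩ := indep hR hα hθ hs _ _ hkey
  have d1 : p ∣ a ^ 2 + α * b ^ 2 := ⟨r * a1, by linear_combination e1⟩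
  have d2 : p ∣ 2 * (a * b) := ⟨r * b1, by linear_combination e2⟩
  have d3 : p ∣ a * b := (hp.dvd_or_dvd d2).resolve_left hp2
  have d4 : p ∣ a ∧ p ∣ b := by
    rcases hp.dvd_or_dvd d3 with h | h
    · refine ⟨h, ?_⟩
      have h5 : p ∣ α * b ^ 2 := by
        have := dvd_sub d1 (dvd_pow h two_ne_zero)
        rwa [add_sub_cancel_left] at this
      exact hp.dvd_of_dvd_pow ((hp.dvd_or_dvd h5).resolve_left hpα)
    · refine ⟨?_, h⟩
      have h5 : p ∣ a ^ 2 := by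
        have := dvd_sub d1 (Dvd.dvd.mul_left (dvd_pow h two_ne_zero) α)
        rwa [add_sub_cancel_right] at this
      exact hp.dvd_of_dvd_pow h5
  obtain ⟨⟨a', ha'⟩, ⟨b', hb'⟩⟩ := d4
  have hcop : IsCoprime p r := (Irreducible.coprime_iff_not_dvd hp.irreducible).mpr hpr
  obtain ⟨u, v, huv⟩ := hcop
  have huv' : algebraMap GaussianInt (𝓞 M) u * algebraMap GaussianInt (𝓞 M) p +
      algebraMap GaussianInt (𝓞 M) v * algebraMap GaussianInt (𝓞 M) r = 1 := by
    rw [← map_mul, ← map_mul, ← map_add, huv, map_one]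
  rw [ha', hb', map_mul, map_mul] at hab
  refine ⟨algebraMap GaussianInt (𝓞 M) u * y + algebraMap GaussianInt (𝓞 M) v *
    (algebraMap GaussianInt (𝓞 M) a' + algebraMap GaussianInt (𝓞 M) b' * θ), ?_⟩
  linear_combination (-y) * huv' + algebraMap GaussianInt (𝓞 M) v * hab

theorem no_sq (p : GaussianInt) (h0 : up M p ≠ ⊥)
    (hsq : ∀ y : 𝓞 M, y ^ 2 ∈ up M p → y ∈ up M p) (P : Ideal (𝓞 M)) (hP : Prime P) :
    ¬ P ^ 2 ∣ up M p := by
  rintro ⟨J, hJ⟩
  have hle : P * J ≤ up M p := by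
    intro y hy
    apply hsq
    have h1 : y ^ 2 ∈ (P * J) ^ 2 := Ideal.pow_mem_pow hy 2
    have h2 : (P * J) ^ 2 = up M p * J := by
      rw [hJ]
      ring
    rw [h2] at h1
    exact Ideal.mul_le_left h1
  have hdvd : up M p ∣ P * J := Ideal.dvd_iff_le.mpr hle
  have hPJ : P * J ≠ 0 := by
    intro h
    apply h0
    rw [hJ, pow_two, mul_assoc, h, mul_zero]
    rfl
  have h3 : (P * J) * P ∣ (P * J) * 1 := by
    have h4 : (P * J) * P = up M p := by
      rw [hJ]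
      ring
    rw [h4, mul_one]
    exact hdvd
  have h5 : P ∣ 1 := (mul_dvd_mul_iff_left hPJ).mp h3
  exact hP.not_isUnit (isUnit_of_dvd_one h5)

end

/-- **D4-UNR** -/
theorem t_unr : St_TL → St_UNR := by
  intro _ M _ _ _ σ Nm hR
  obtain ⟨θ, α, r, hα, hr, hθ, hs, hx⟩ := hR.th
  refine ⟨2 * α.norm.natAbs * r.norm.natAbs, ?_, ?_⟩
  · exact mul_ne_zero (mul_ne_zero two_ne_zero (norm_ne α hα)) (norm_ne r hr)
  · intro p hp hpR P hP
    have hcast : ((2 * α.norm.natAbs * r.norm.natAbs : ℕ) : GaussianInt) =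
        2 * (α * star α) * (r * star r) := by
      rw [Nat.cast_mul, Nat.cast_mul, norm_cast, norm_cast, Nat.cast_ofNat]
    rw [hcast] at hpR
    have hp2 : ¬ p ∣ 2 := fun h => hpR (Dvd.dvd.mul_right (Dvd.dvd.mul_right h _) _)
    have hpα : ¬ p ∣ α := fun h =>
      hpR (Dvd.dvd.mul_right (Dvd.dvd.mul_left (Dvd.dvd.mul_right h _) _) _)
    have hpr : ¬ p ∣ r := fun h =>
      hpR (Dvd.dvd.mul_left (Dvd.dvd.mul_right h _) _)
    have h0 : up M p ≠ ⊥ := by
      intro h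
      rw [up, Ideal.span_singleton_eq_bot] at h
      apply hp.ne_zero
      apply hR.inj
      rw [h, map_zero]
    exact no_sq p h0 (fun y hy => sq_mem hR hα hθ hs hx p hp hp2 hpα hpr y hy) P hP

end Pool.Agent.Y903.D4
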